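import Pool.Agent.MP_dd5568_co.Bound

/-!
The simplexity of the cube is at most `(n+1)^((n-1)/2) (2 log (n+1) + 2)^n`; in particular
`(f(n) / n!)^(1/n)` tends to `0`, so no bound `f(n) ≥ γ^n n!` holds.
-/

set_option autoImplicit false

open Filter Topology

namespace Pool.Agent.Results.MP_dd5568_co.SimplexityUpper

/-- A face-to-face triangulation of the cube `[0,1]^n` without new vertices. A simplex is given by
its finite set of vertices. -/
structure IsCubeTriangulation (n : ℕ) (T : Finset (Finset (Fin n → ℝ))) : Prop where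
  simplex : ∀ S ∈ T, S.card = n + 1 ∧ AffineIndependent ℝ (fun x : S => (x : Fin n → ℝ))
  vertices : ∀ S ∈ T, ∀ v ∈ S, ∀ i : Fin n, v i = 0 ∨ v i = 1
  cover : (⋃ S ∈ T, convexHull ℝ (↑S : Set (Fin n → ℝ))) = Set.Icc (0 : Fin n → ℝ) 1
  interiors : ∀ S ∈ T, ∀ S' ∈ T, S ≠ S' →
    Disjoint (interior (convexHull ℝ (↑S : Set (Fin n → ℝ))))
      (interior (convexHull ℝ (↑S' : Set (Fin n → ℝ))))
  face_to_face : ∀ S ∈ T, ∀ S' ∈ T,
    convexHull ℝ (↑S : Set (Fin n → ℝ)) ∩ convexHull ℝ (↑S' : Set (Fin n → ℝ)) =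
      convexHull ℝ (↑(S ∩ S') : Set (Fin n → ℝ))

/-- The simplexity `f(n)`: the least number of simplices in a triangulation of `[0,1]^n`. -/
noncomputable def simplexity (n : ℕ) : ℕ :=
  sInf {m : ℕ | ∃ T : Finset (Finset (Fin n → ℝ)), IsCubeTriangulation n T ∧ T.card = m}

open MeasureTheory in
theorem volume_small {n : ℕ} (A : Finset (Fin n → ℝ)) (hA : A.card ≤ n) :
    volume (convexHull ℝ (↑A : Set (Fin n → ℝ))) = 0 := by
  classical
  rcases Nat.eq_zero_or_pos A.card with h0 | hpos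
  · rw [Finset.card_eq_zero] at h0
    subst h0
    simp
  · have hne : affineSpan ℝ (↑A : Set (Fin n → ℝ)) ≠ ⊤ := by
      intro htop
      have h1 : Module.finrank ℝ (vectorSpan ℝ (↑A : Set (Fin n → ℝ))) ≤ A.card - 1 := by
        have := finrank_vectorSpan_image_finset_le ℝ (id : (Fin n → ℝ) → Fin n → ℝ) A
          (n := A.card - 1) (by omega)
        rwa [Finset.image_id] at this
      rw [← direction_affineSpan, htop, AffineSubspace.direction_top, finrank_top] at h1
      simp at h1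
      omega
    exact measure_mono_null (convexHull_subset_affineSpan _)
      (Measure.addHaar_affineSubspace volume _ hne)

open MeasureTheory Pool.Agent.MP_dd5568_co in
theorem exists_tri (n : ℕ) : ∃ T : Finset (Finset (Fin n → ℝ)), IsCubeTriangulation n T ∧
    (T.card : ℝ) * (n + 1) ≤
      (Real.sqrt (n + 1)) ^ (n + 1) * (2 * Real.log (n + 1) + 2) ^ n := by
  obtain ⟨ω, hω, hcard⟩ := exists_triangulation n
  refine ⟨T ω, ⟨fun S hS => ⟨(T_cond S hS).1, (T_cond S hS).2.1⟩, fun S hS => (T_cond S hS).2.2,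
    T_cover hω, ?_, fun S hS S' hS' => T_inter S hS S' hS'⟩, hcard⟩
  intro S hS S' hS' hne
  rw [Set.disjoint_iff_inter_eq_empty, ← interior_inter, T_inter S hS S' hS']
  have hlt : (S ∩ S').card ≤ n := by
    have h1 := (T_cond S hS).1
    have h2 := (T_cond S' hS').1
    by_contra hcon
    have h3 : S ∩ S' = S := Finset.eq_of_subset_of_card_le Finset.inter_subset_left (by omega)
    have h4 : S ∩ S' = S' := Finset.eq_of_subset_of_card_le Finset.inter_subset_right (by omega)
    exact hne (h3.symm.trans h4)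
  exact Measure.interior_eq_empty_of_null (μ := volume) (volume_small _ hlt)

theorem simplexity_le (n : ℕ) : (simplexity n : ℝ) * (n + 1) ≤
    (Real.sqrt (n + 1)) ^ (n + 1) * (2 * Real.log (n + 1) + 2) ^ n := by
  obtain ⟨T, hT, hb⟩ := exists_tri n
  have h1 : simplexity n ≤ T.card := Nat.sInf_le ⟨T, hT, rfl⟩
  have h2 : (simplexity n : ℝ) ≤ T.card := by exact_mod_cast h1
  have h3 : (0 : ℝ) ≤ (n : ℝ) + 1 := by positivity
  exact (mul_le_mul_of_nonneg_right h2 h3).trans hb

theorem root_le (n : ℕ) (hn : 1 ≤ n) :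
    ((simplexity n : ℝ) / n.factorial) ^ ((1 : ℝ) / n) ≤
      Real.sqrt (n + 1) * (2 * Real.log (n + 1) + 2) * Real.exp 1 / n := by
  have hn0 : (0 : ℝ) < n := by exact_mod_cast hn
  have hL : 0 ≤ 2 * Real.log ((n : ℝ) + 1) + 2 := by
    have := Real.log_nonneg (x := (n : ℝ) + 1) (by linarith)
    linarith
  set B : ℝ := Real.sqrt (n + 1) * (2 * Real.log (n + 1) + 2) * Real.exp 1 / n with hB
  have hB0 : 0 ≤ B := by positivity
  have hfac : (0 : ℝ) < n.factorial := by exact_mod_cast n.factorial_pos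
  have hexp : (n : ℝ) ^ n ≤ Real.exp 1 ^ n * n.factorial := by
    have h1 := Real.pow_div_factorial_le_exp (x := (n : ℝ)) hn0.le n
    rw [div_le_iff₀ hfac] at h1
    calc (n : ℝ) ^ n ≤ Real.exp n * n.factorial := h1
      _ = _ := by
        rw [← Real.exp_nat_mul]
        ring_nf
  have hs : 0 < Real.sqrt ((n : ℝ) + 1) := Real.sqrt_pos.2 (by positivity)
  have hs1 : Real.sqrt ((n : ℝ) + 1) ≤ (n : ℝ) + 1 := by
    rw [Real.sqrt_le_left (by positivity)]
    nlinarith
  have hsimp : (simplexity n : ℝ) ≤ (Real.sqrt (n + 1)) ^ n * (2 * Real.log (n + 1) + 2) ^ n := by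
    have h1 := simplexity_le n
    have h2 : (Real.sqrt ((n : ℝ) + 1)) ^ (n + 1) * (2 * Real.log ((n : ℝ) + 1) + 2) ^ n ≤
        ((Real.sqrt (n + 1)) ^ n * (2 * Real.log (n + 1) + 2) ^ n) * ((n : ℝ) + 1) := by
      rw [pow_succ]
      have h3 : 0 ≤ Real.sqrt ((n : ℝ) + 1) ^ n * (2 * Real.log ((n : ℝ) + 1) + 2) ^ n := by
        positivity
      calc _ = Real.sqrt ((n : ℝ) + 1) ^ n * (2 * Real.log ((n : ℝ) + 1) + 2) ^ n *
            Real.sqrt ((n : ℝ) + 1) := by ring
        _ ≤ _ := mul_le_mul_of_nonneg_left hs1 h3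
    exact le_of_mul_le_mul_right (h1.trans h2) (by positivity)
  have hpow : (simplexity n : ℝ) / n.factorial ≤ B ^ n := by
    rw [div_le_iff₀ hfac, hB, div_pow, div_mul_eq_mul_div, le_div_iff₀ (by positivity)]
    calc (simplexity n : ℝ) * (n : ℝ) ^ n
        ≤ ((Real.sqrt (n + 1)) ^ n * (2 * Real.log (n + 1) + 2) ^ n) *
          (Real.exp 1 ^ n * n.factorial) := by
          apply mul_le_mul hsimp hexp (by positivity) (by positivity)
      _ = _ := by rw [mul_pow, mul_pow]; ring
  have h0 : 0 ≤ (simplexity n : ℝ) / n.factorial := by positivity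
  calc ((simplexity n : ℝ) / n.factorial) ^ ((1 : ℝ) / n) ≤ (B ^ n) ^ ((1 : ℝ) / n) :=
        Real.rpow_le_rpow h0 hpow (by positivity)
    _ = B := by
        rw [← Real.rpow_natCast, ← Real.rpow_mul hB0, mul_one_div_cancel hn0.ne', Real.rpow_one]

theorem tendsto_root :
    Tendsto (fun n : ℕ => ((simplexity n : ℝ) / n.factorial) ^ ((1 : ℝ) / n)) atTop (𝓝 0) := by
  have hlim : Tendsto (fun n : ℕ =>
      Real.sqrt (n + 1) * (2 * Real.log (n + 1) + 2) * Real.exp 1 / n) atTop (𝓝 0) := by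
    have h1 : Tendsto (fun x : ℝ => Real.sqrt (x + 1) * (2 * Real.log (x + 1) + 2) *
        Real.exp 1 / x) atTop (𝓝 0) := by
      have ho : (fun x : ℝ => Real.log (x + 1)) =o[atTop] fun x : ℝ => (x + 1) ^ ((1 : ℝ) / 4) :=
        (isLittleO_log_rpow_atTop (by norm_num)).comp_tendsto
          (tendsto_atTop_add_const_right atTop 1 tendsto_id)
      have hd := ho.tendsto_div_nhds_zero
      have hc : Tendsto (fun x : ℝ => (x + 1) ^ (-((1 : ℝ) / 4))) atTop (𝓝 0) :=
        (tendsto_rpow_neg_atTop (by norm_num)).comp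
          (tendsto_atTop_add_const_right atTop 1 tendsto_id)
      have hq : Tendsto (fun x : ℝ => (x + 1) / x) atTop (𝓝 1) := by
        have : Tendsto (fun x : ℝ => 1 + x⁻¹) atTop (𝓝 (1 + 0)) :=
          tendsto_const_nhds.add tendsto_inv_atTop_zero
        rw [add_zero] at this
        refine this.congr' ?_
        filter_upwards [eventually_gt_atTop 0] with x hx
        field_simp
      have hprod := ((hc.mul ((hd.const_mul 2).add (hc.const_mul 2))).mul hq).mul_const (Real.exp 1)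
      simp only [mul_zero, add_zero, zero_mul] at hprod
      refine hprod.congr' ?_
      filter_upwards [eventually_gt_atTop 0] with x hx
      have hx1 : 0 < x + 1 := by linarith
      have e1 : (x + 1) ^ (-((1 : ℝ) / 4)) = ((x + 1) ^ ((1 : ℝ) / 4))⁻¹ :=
        Real.rpow_neg hx1.le _
      have e2 : Real.sqrt (x + 1) = ((x + 1) ^ ((1 : ℝ) / 4)) ^ 2 := by
        rw [← Real.rpow_natCast, ← Real.rpow_mul hx1.le, Real.sqrt_eq_rpow]
        norm_num
      have e3 : x + 1 = ((x + 1) ^ ((1 : ℝ) / 4)) ^ 4 := by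
        rw [← Real.rpow_natCast, ← Real.rpow_mul hx1.le]
        norm_num
      have hp : 0 < (x + 1) ^ ((1 : ℝ) / 4) := Real.rpow_pos_of_pos hx1 _
      rw [e1, e2]
      set y := (x + 1) ^ ((1 : ℝ) / 4) with hy
      have e4 : (x + 1) / x = y ^ 4 / x := by rw [← e3]
      rw [e4]
      field_simp
    have h2 := h1.comp tendsto_natCast_atTop_atTop
    exact h2
  refine tendsto_of_tendsto_of_tendsto_of_le_of_le' tendsto_const_nhds hlim ?_ ?_
  · exact Eventually.of_forall fun n => by positivity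
  · filter_upwards [eventually_ge_atTop 1] with n hn
    exact root_le n hn

/-- For every `n` the cube has a triangulation with at most
`(n+1)^((n+1)/2) (2 log (n+1) + 2)^n / (n+1)` simplices, and `(f(n)/n!)^(1/n)` tends to `0`. -/
theorem result :
    (∀ n : ℕ, ∃ T : Finset (Finset (Fin n → ℝ)), IsCubeTriangulation n T ∧
      (T.card : ℝ) * (n + 1) ≤
        (Real.sqrt (n + 1)) ^ (n + 1) * (2 * Real.log (n + 1) + 2) ^ n) ∧
    Tendsto (fun n : ℕ => ((simplexity n : ℝ) / n.factorial) ^ ((1 : ℝ) / n)) atTop (𝓝 0) :=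
  ⟨exists_tri, tendsto_root⟩

end Pool.Agent.Results.MP_dd5568_co.SimplexityUpper
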